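import Mathlib

/-!
# The least number of unit segments that destroy all squares of the `n × n` board
-/

set_option autoImplicit false

namespace Pool.Agent.Results.MP_5493ad_co.UnitSegments

open Finset

/-- Unit segments: `inl (x, y)` is the horizontal segment from `(x, y)` to `(x + 1, y)`, and
`inr (x, y)` is the vertical segment from `(x, y)` to `(x, y + 1)`. -/
abbrev Seg := (ℕ × ℕ) ⊕ (ℕ × ℕ)

/-- The unit segments of the `n × n` board `{0, ..., n}²`. -/
def board (n : ℕ) : Finset Seg := (range n ×ˢ range (n + 1)).disjSum (range (n + 1) ×ˢ range n)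

/-- The `4 k` unit segments that form the boundary of the square `[a, a + k] × [b, b + k]`. -/
def sq (a b k : ℕ) : Finset Seg :=
  ((range k).image fun t => Sum.inl (a + t, b)) ∪ ((range k).image fun t => Sum.inl (a + t, b + k)) ∪
    ((range k).image fun t => Sum.inr (a, b + t)) ∪ ((range k).image fun t => Sum.inr (a + k, b + t))

/-- `R` is a set of segments of the board that contains a segment of the boundary of each
square of the board. -/
def Destroys (n : ℕ) (R : Finset Seg) : Prop :=
  R ⊆ board n ∧ ∀ k a b, 1 ≤ k → a + k ≤ n → b + k ≤ n → (sq a b k ∩ R).Nonempty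

/-- The least size of a set that destroys all squares. -/
noncomputable def f (n : ℕ) : ℕ := sInf {c | ∃ R, Destroys n R ∧ R.card = c}

/-- The construction for the `2 m × 2 m` board. -/
def evenR (m : ℕ) : Finset Seg :=
  ((range m).biUnion fun j => (range (m - j)).image fun i => Sum.inl (j, j + 1 + 2 * i)) ∪
  ((range m).biUnion fun j => (range (m - j)).image fun i =>
    Sum.inl (2 * m - 1 - j, j + 1 + 2 * i)) ∪
  ((range m).biUnion fun j => (range (m - 1 - j)).image fun i =>
    Sum.inr (j + 2 + 2 * i, 2 * m - 1 - j)) ∪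
  ((range m).biUnion fun j => (range (m - 2 - j)).image fun i => Sum.inr (j + 2 + 2 * i, j)) ∪
  ((range m).image fun j => Sum.inl (2 * m - 2 - j, j))

/-- Shift to the right by one. -/
def sh : Seg → Seg
  | Sum.inl (x, y) => Sum.inl (x + 1, y)
  | Sum.inr (x, y) => Sum.inr (x + 1, y)

/-- The construction for the `(2 m + 1) × (2 m + 1)` board, `m ≥ 1`. -/
def oddR (m : ℕ) : Finset Seg :=
  (evenR m).image sh ∪ ((range m).image fun i => Sum.inl (0, 2 + 2 * i)) ∪
    ((range m).image fun i => Sum.inr (2 + 2 * i, 2 * m)) ∪ {Sum.inr (0, 0)}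

/-- The construction. -/
def opt (n : ℕ) : Finset Seg :=
  if n = 1 then {Sum.inl (0, 0)} else if n % 2 = 0 then evenR (n / 2) else oddR (n / 2)

/-! ### The construction -/

theorem hit_iff {a b k : ℕ} {R : Finset Seg} : (sq a b k ∩ R).Nonempty ↔
    ∃ t < k, Sum.inl (a + t, b) ∈ R ∨ Sum.inl (a + t, b + k) ∈ R ∨
      Sum.inr (a, b + t) ∈ R ∨ Sum.inr (a + k, b + t) ∈ R := by
  constructor
  · rintro ⟨e, he⟩
    simp only [sq, mem_inter, mem_union, mem_image, mem_range] at he
    obtain ⟨((⟨t, ht, rfl⟩ | ⟨t, ht, rfl⟩) | ⟨t, ht, rfl⟩) | ⟨t, ht, rfl⟩, h⟩ := he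
    · exact ⟨t, ht, Or.inl h⟩
    · exact ⟨t, ht, Or.inr (Or.inl h)⟩
    · exact ⟨t, ht, Or.inr (Or.inr (Or.inl h))⟩
    · exact ⟨t, ht, Or.inr (Or.inr (Or.inr h))⟩
  · rintro ⟨t, ht, h | h | h | h⟩
    · exact ⟨_, mem_inter.2 ⟨by simp only [sq, mem_union, mem_image, mem_range]; exact Or.inl (Or.inl (Or.inl ⟨t, ht, rfl⟩)), h⟩⟩
    · exact ⟨_, mem_inter.2 ⟨by simp only [sq, mem_union, mem_image, mem_range]; exact Or.inl (Or.inl (Or.inr ⟨t, ht, rfl⟩)), h⟩⟩
    · exact ⟨_, mem_inter.2 ⟨by simp only [sq, mem_union, mem_image, mem_range]; exact Or.inl (Or.inr ⟨t, ht, rfl⟩), h⟩⟩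
    · exact ⟨_, mem_inter.2 ⟨by simp only [sq, mem_union, mem_image, mem_range]; exact Or.inr ⟨t, ht, rfl⟩, h⟩⟩

theorem hit_b {a b k x y : ℕ} {R : Finset Seg} (h : Sum.inl (x, y) ∈ R) (hx : a ≤ x)
    (hx' : x < a + k) (hy : y = b ∨ y = b + k) : (sq a b k ∩ R).Nonempty := by
  rw [hit_iff]
  refine ⟨x - a, by omega, ?_⟩
  have h1 : a + (x - a) = x := by omega
  rw [h1]
  rcases hy with rfl | rfl
  · exact Or.inl h
  · exact Or.inr (Or.inl h)

theorem hit_s {a b k x y : ℕ} {R : Finset Seg} (h : Sum.inr (x, y) ∈ R) (hy : b ≤ y)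
    (hy' : y < b + k) (hx : x = a ∨ x = a + k) : (sq a b k ∩ R).Nonempty := by
  rw [hit_iff]
  refine ⟨y - b, by omega, ?_⟩
  have h1 : b + (y - b) = y := by omega
  rw [h1]
  rcases hx with rfl | rfl
  · exact Or.inr (Or.inr (Or.inl h))
  · exact Or.inr (Or.inr (Or.inr h))

section even

variable {m : ℕ}

theorem left_mem {j y : ℕ} (h1 : j + 1 ≤ y) (h2 : y + j + 1 ≤ 2 * m) (h3 : (y + j) % 2 = 1) :
    Sum.inl (j, y) ∈ evenR m := by
  simp only [evenR, mem_union, mem_biUnion, mem_image, mem_range]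
  refine Or.inl (Or.inl (Or.inl (Or.inl ⟨j, by omega, (y - j - 1) / 2, by omega, ?_⟩)))
  congr 2
  omega

theorem right_mem {j x y : ℕ} (hx : x + j + 1 = 2 * m) (h1 : j + 1 ≤ y) (h2 : y + j + 1 ≤ 2 * m)
    (h3 : (y + j) % 2 = 1) : Sum.inl (x, y) ∈ evenR m := by
  simp only [evenR, mem_union, mem_biUnion, mem_image, mem_range]
  refine Or.inl (Or.inl (Or.inl (Or.inr ⟨j, by omega, (y - j - 1) / 2, by omega, ?_⟩)))
  congr 2 <;> omega

theorem top_mem {j x y : ℕ} (hy : y + j + 1 = 2 * m) (h1 : j + 2 ≤ x) (h2 : x + j + 2 ≤ 2 * m)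
    (h3 : (x + j) % 2 = 0) : Sum.inr (x, y) ∈ evenR m := by
  simp only [evenR, mem_union, mem_biUnion, mem_image, mem_range]
  refine Or.inl (Or.inl (Or.inr ⟨j, by omega, (x - j - 2) / 2, by omega, ?_⟩))
  congr 2 <;> omega

theorem bot_mem {j x : ℕ} (h1 : j + 2 ≤ x) (h2 : x + j + 4 ≤ 2 * m)
    (h3 : (x + j) % 2 = 0) : Sum.inr (x, j) ∈ evenR m := by
  simp only [evenR, mem_union, mem_biUnion, mem_image, mem_range]
  refine Or.inl (Or.inr ⟨j, by omega, (x - j - 2) / 2, by omega, ?_⟩)
  congr 2
  omega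

theorem rad_mem {j x : ℕ} (hx : x + j + 2 = 2 * m) (hj : j < m) :
    Sum.inl (x, j) ∈ evenR m := by
  simp only [evenR, mem_union, mem_biUnion, mem_image, mem_range]
  refine Or.inr ⟨j, hj, ?_⟩
  congr 2
  omega

theorem evenR_sub : evenR m ⊆ board (2 * m) := by
  intro e he
  simp only [evenR, mem_union, mem_biUnion, mem_image, mem_range] at he
  obtain (((⟨j, hj, i, hi, rfl⟩ | ⟨j, hj, i, hi, rfl⟩) | ⟨j, hj, i, hi, rfl⟩) |
    ⟨j, hj, i, hi, rfl⟩) | ⟨j, hj, rfl⟩ := he
  · simp only [board, inl_mem_disjSum, mem_product, mem_range]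
    omega
  · simp only [board, inl_mem_disjSum, mem_product, mem_range]
    omega
  · simp only [board, inr_mem_disjSum, mem_product, mem_range]
    omega
  · simp only [board, inr_mem_disjSum, mem_product, mem_range]
    omega
  · simp only [board, inl_mem_disjSum, mem_product, mem_range]
    omega

theorem evenR_card (hm : 1 ≤ m) : (evenR m).card ≤ 2 * m ^ 2 + 1 := by
  have h1 : ∀ (g : ℕ → ℕ) (F : ℕ → ℕ → Seg), ((range m).biUnion fun j =>
      (range (g j)).image fun i => F j i).card ≤ ∑ j ∈ range m, g j := by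
    intro g F
    refine card_biUnion_le.trans (sum_le_sum fun j _ => ?_)
    exact card_image_le.trans (by rw [card_range])
  have h2 : (evenR m).card ≤ (∑ j ∈ range m, (m - j)) + (∑ j ∈ range m, (m - j)) +
      (∑ j ∈ range m, (m - 1 - j)) + (∑ j ∈ range m, (m - 2 - j)) + m := by
    unfold evenR
    refine (card_union_le _ _).trans (add_le_add ((card_union_le _ _).trans (add_le_add
      ((card_union_le _ _).trans (add_le_add ((card_union_le _ _).trans (add_le_add
        (h1 _ _) (h1 _ _))) (h1 _ _))) (h1 _ _))) ?_)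
    exact card_image_le.trans (by rw [card_range])
  refine h2.trans (le_of_eq ?_)
  have h3 : ∀ m : ℕ, 2 * ∑ j ∈ range m, (m - j) = m * (m + 1) := by
    intro m
    induction m with
    | zero => rfl
    | succ m ih =>
      rw [sum_range_succ']
      have : ∀ j, m + 1 - (j + 1) = m - j := fun j => by omega
      simp only [this]
      ring_nf
      ring_nf at ih
      omega
  have h4 : ∀ m : ℕ, ∑ j ∈ range (m + 1), (m + 1 - 1 - j) = ∑ j ∈ range m, (m - j) := by
    intro m
    rw [sum_range_succ]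
    simp
  have h5 : ∀ m : ℕ, ∑ j ∈ range (m + 2), (m + 2 - 2 - j) = ∑ j ∈ range m, (m - j) := by
    intro m
    rw [sum_range_succ, sum_range_succ]
    simp
  obtain ⟨m, rfl⟩ : ∃ m', m = m' + 1 := ⟨m - 1, by omega⟩
  rcases m with _ | m
  · rfl
  · have e1 := h3 (m + 2)
    have e2 := h3 (m + 1)
    have e3 := h3 m
    have e4 := h4 (m + 1)
    have e5 := h5 m
    rw [show m + 1 + 1 = m + 2 from rfl] at *
    rw [e4, e5]
    nlinarith

theorem evenR_hit {a b k : ℕ} (hk : 1 ≤ k) (ha : a + k ≤ 2 * m) (hb : b + k ≤ 2 * m) :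
    (sq a b k ∩ evenR m).Nonempty := by
  -- squares that touch the left side of the ring `j`
  by_cases hL : a ≤ b ∧ 2 * a + k ≤ 2 * m ∧ a + b + k ≤ 2 * m
  · obtain ⟨h1, h2, h3⟩ := hL
    by_cases c1 : (a + b) % 2 = 1
    · exact hit_b (left_mem (j := a) (y := b) (by omega) (by omega) (by omega)) le_rfl (by omega)
        (Or.inl rfl)
    by_cases c2 : (a + b + k) % 2 = 1
    · exact hit_b (left_mem (j := a) (y := b + k) (by omega) (by omega) (by omega)) le_rfl
        (by omega) (Or.inr rfl)
    by_cases c3 : a < b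
    · exact hit_b (left_mem (j := a + 1) (y := b) (by omega) (by omega) (by omega)) (by omega)
        (by omega) (Or.inl rfl)
    obtain rfl : a = b := by omega
    by_cases c4 : 2 * a + k < 2 * m
    · exact hit_b (left_mem (j := a + 1) (y := a + k) (by omega) (by omega) (by omega))
        (by omega) (by omega) (Or.inr rfl)
    · exact hit_b (rad_mem (j := a) (x := 2 * m - 2 - a) (by omega) (by omega)) (by omega)
        (by omega) (Or.inl rfl)
  by_cases hR : 2 * m ≤ 2 * a + k ∧ 2 * m ≤ a + k + b ∧ b ≤ a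
  · obtain ⟨h1, h2, h3⟩ := hR
    obtain ⟨j, hj⟩ : ∃ j, a + k + j = 2 * m := ⟨2 * m - a - k, by omega⟩
    by_cases c1 : (j + b) % 2 = 1
    · exact hit_b (right_mem (j := j) (x := 2 * m - 1 - j) (y := b) (by omega) (by omega)
        (by omega) (by omega)) (by omega) (by omega) (Or.inl rfl)
    by_cases c2 : (j + b + k) % 2 = 1
    · exact hit_b (right_mem (j := j) (x := 2 * m - 1 - j) (y := b + k) (by omega) (by omega)
        (by omega) (by omega)) (by omega) (by omega) (Or.inr rfl)
    by_cases c3 : j < b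
    · exact hit_b (right_mem (j := j + 1) (x := 2 * m - 2 - j) (y := b) (by omega) (by omega)
        (by omega) (by omega)) (by omega) (by omega) (Or.inl rfl)
    obtain rfl : j = b := by omega
    by_cases c4 : 2 * j + k < 2 * m
    · exact hit_b (right_mem (j := j + 1) (x := 2 * m - 2 - j) (y := j + k) (by omega) (by omega)
        (by omega) (by omega)) (by omega) (by omega) (Or.inr rfl)
    · exact hit_b (rad_mem (j := j) (x := 2 * m - 2 - j) (by omega) (by omega)) (by omega)
        (by omega) (Or.inl rfl)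
  by_cases hT : 2 * m ≤ 2 * b + k
  · -- top
    obtain ⟨j, hj⟩ : ∃ j, b + k + j = 2 * m := ⟨2 * m - b - k, by omega⟩
    have h1 : j < a := by omega
    have h2 : a + k + j < 2 * m := by omega
    by_cases c1 : (a + j) % 2 = 0
    · exact hit_s (top_mem (j := j) (x := a) (y := 2 * m - 1 - j) (by omega) (by omega)
        (by omega) (by omega)) (by omega) (by omega) (Or.inl rfl)
    by_cases c2 : (a + k + j) % 2 = 0
    · exact hit_s (top_mem (j := j) (x := a + k) (y := 2 * m - 1 - j) (by omega) (by omega)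
        (by omega) (by omega)) (by omega) (by omega) (Or.inr rfl)
    by_cases c3 : j + 3 ≤ a
    · exact hit_s (top_mem (j := j + 1) (x := a) (y := 2 * m - 2 - j) (by omega) (by omega)
        (by omega) (by omega)) (by omega) (by omega) (Or.inl rfl)
    by_cases c4 : a + k + j + 3 ≤ 2 * m
    · exact hit_s (top_mem (j := j + 1) (x := a + k) (y := 2 * m - 2 - j) (by omega) (by omega)
        (by omega) (by omega)) (by omega) (by omega) (Or.inr rfl)
    · exact hit_b (left_mem (m := m) (j := j + 1) (y := b) (by omega) (by omega) (by omega))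
        (by omega) (by omega) (Or.inl rfl)
  · -- bottom
    have h1 : b < a := by omega
    have h2 : a + k + b < 2 * m := by omega
    by_cases c0 : 2 * m < a + k + b + 2
    · exact hit_b (rad_mem (m := m) (j := b) (x := 2 * m - 2 - b) (by omega) (by omega))
        (by omega) (by omega) (Or.inl rfl)
    by_cases c1 : (a + b) % 2 = 0
    · exact hit_s (bot_mem (m := m) (j := b) (x := a) (by omega) (by omega) (by omega)) le_rfl
        (by omega) (Or.inl rfl)
    by_cases c2 : (a + k + b) % 2 = 0 ∧ a + k + b + 4 ≤ 2 * m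
    · exact hit_s (bot_mem (m := m) (j := b) (x := a + k) (by omega) (by omega) (by omega)) le_rfl
        (by omega) (Or.inr rfl)
    by_cases c3 : k = 1
    · exact hit_b (rad_mem (m := m) (j := b + 1) (x := 2 * m - 3 - b) (by omega) (by omega))
        (by omega) (by omega) (Or.inr (by omega))
    by_cases c4 : b + 3 ≤ a
    · exact hit_s (bot_mem (m := m) (j := b + 1) (x := a) (by omega) (by omega) (by omega))
        (by omega) (by omega) (Or.inl rfl)
    by_cases c5 : (a + k + b) % 2 = 0
    · exact hit_b (left_mem (m := m) (j := b + 2) (y := b + k) (by omega) (by omega) (by omega))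
        (by omega) (by omega) (Or.inr rfl)
    by_cases c6 : a + k + b + 5 ≤ 2 * m
    · exact hit_s (bot_mem (m := m) (j := b + 1) (x := a + k) (by omega) (by omega) (by omega))
        (by omega) (by omega) (Or.inr rfl)
    · exact hit_b (left_mem (m := m) (j := b + 1) (y := b + k) (by omega) (by omega) (by omega))
        (by omega) (by omega) (Or.inr rfl)

end even

section odd

variable {m : ℕ}

theorem sh_inl_mem {x y : ℕ} (h : Sum.inl (x, y) ∈ evenR m) : Sum.inl (x + 1, y) ∈ oddR m := by
  simp only [oddR, mem_union, mem_image]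
  exact Or.inl (Or.inl (Or.inl ⟨_, h, rfl⟩))

theorem sh_inr_mem {x y : ℕ} (h : Sum.inr (x, y) ∈ evenR m) : Sum.inr (x + 1, y) ∈ oddR m := by
  simp only [oddR, mem_union, mem_image]
  exact Or.inl (Or.inl (Or.inl ⟨_, h, rfl⟩))

theorem col_mem {y : ℕ} (h1 : 2 ≤ y) (h2 : y ≤ 2 * m) (h3 : y % 2 = 0) :
    Sum.inl (0, y) ∈ oddR m := by
  simp only [oddR, mem_union, mem_image, mem_range]
  refine Or.inl (Or.inl (Or.inr ⟨(y - 2) / 2, by omega, ?_⟩))
  congr 2
  omega

theorem row_mem {x : ℕ} (h1 : 2 ≤ x) (h2 : x ≤ 2 * m) (h3 : x % 2 = 0) :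
    Sum.inr (x, 2 * m) ∈ oddR m := by
  simp only [oddR, mem_union, mem_image, mem_range]
  refine Or.inl (Or.inr ⟨(x - 2) / 2, by omega, ?_⟩)
  congr 2
  omega

theorem cor_mem : Sum.inr (0, 0) ∈ oddR m := by
  rw [oddR, mem_union, mem_singleton]
  exact Or.inr rfl

theorem oddR_sub : oddR m ⊆ board (2 * m + 1) := by
  intro e he
  simp only [oddR, mem_union, mem_image, mem_range, mem_singleton] at he
  obtain ((⟨e, he, rfl⟩ | ⟨i, hi, rfl⟩) | ⟨i, hi, rfl⟩) | rfl := he
  · have h1 := evenR_sub he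
    rcases e with ⟨x, y⟩ | ⟨x, y⟩
    · simp only [board, inl_mem_disjSum, mem_product, mem_range] at h1
      simp only [sh, board, inl_mem_disjSum, mem_product, mem_range]
      omega
    · simp only [board, inr_mem_disjSum, mem_product, mem_range] at h1
      simp only [sh, board, inr_mem_disjSum, mem_product, mem_range]
      omega
  · simp only [board, inl_mem_disjSum, mem_product, mem_range]
    omega
  · simp only [board, inr_mem_disjSum, mem_product, mem_range]
    omega
  · simp only [board, inr_mem_disjSum, mem_product, mem_range]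
    omega

theorem oddR_card (hm : 1 ≤ m) : (oddR m).card ≤ 2 * m ^ 2 + 2 * m + 2 := by
  unfold oddR
  refine (card_union_le _ _).trans ?_
  have h1 := card_union_le ((evenR m).image sh ∪
    ((range m).image fun i => (Sum.inl (0, 2 + 2 * i) : Seg)))
    ((range m).image fun i => (Sum.inr (2 + 2 * i, 2 * m) : Seg))
  have h2 := card_union_le ((evenR m).image sh)
    ((range m).image fun i => (Sum.inl (0, 2 + 2 * i) : Seg))
  have h3 : ((evenR m).image sh).card ≤ _ := card_image_le.trans (evenR_card hm)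
  have h4 : ((range m).image fun i => (Sum.inl (0, 2 + 2 * i) : Seg)).card ≤ m :=
    card_image_le.trans (by rw [card_range])
  have h5 : ((range m).image fun i => (Sum.inr (2 + 2 * i, 2 * m) : Seg)).card ≤ m :=
    card_image_le.trans (by rw [card_range])
  have h6 : ({Sum.inr (0, 0)} : Finset Seg).card = 1 := card_singleton _
  omega

theorem sh_hit {a b k : ℕ} (h : (sq a b k ∩ evenR m).Nonempty) :
    (sq (a + 1) b k ∩ oddR m).Nonempty := by
  rw [hit_iff] at h ⊢
  obtain ⟨t, ht, h | h | h | h⟩ := h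
  · refine ⟨t, ht, Or.inl ?_⟩
    rw [show a + 1 + t = a + t + 1 by omega]
    exact sh_inl_mem h
  · refine ⟨t, ht, Or.inr (Or.inl ?_)⟩
    rw [show a + 1 + t = a + t + 1 by omega]
    exact sh_inl_mem h
  · exact ⟨t, ht, Or.inr (Or.inr (Or.inl (sh_inr_mem h)))⟩
  · refine ⟨t, ht, Or.inr (Or.inr (Or.inr ?_))⟩
    rw [show a + 1 + k = a + k + 1 by omega]
    exact sh_inr_mem h

theorem oddR_hit (hm : 1 ≤ m) {a b k : ℕ} (hk : 1 ≤ k) (ha : a + k ≤ 2 * m + 1)
    (hb : b + k ≤ 2 * m + 1) : (sq a b k ∩ oddR m).Nonempty := by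
  rcases a with _ | a
  · by_cases c0 : b = 0
    · subst c0
      exact hit_s cor_mem le_rfl (by omega) (Or.inl rfl)
    by_cases c1 : b % 2 = 0
    · exact hit_b (col_mem (y := b) (by omega) (by omega) c1) le_rfl (by omega) (Or.inl rfl)
    by_cases c2 : k = 1
    · exact hit_b (col_mem (y := b + 1) (by omega) (by omega) (by omega)) le_rfl (by omega)
        (Or.inr (by omega))
    · exact hit_b (sh_inl_mem (left_mem (j := 0) (y := b) (by omega) (by omega) (by omega)))
        (by omega) (by omega) (Or.inl rfl)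
  · by_cases c0 : b + k ≤ 2 * m
    · exact sh_hit (evenR_hit hk (by omega) c0)
    by_cases c1 : a % 2 = 1
    · exact hit_s (row_mem (x := a + 1) (by omega) (by omega) (by omega)) (by omega) (by omega)
        (Or.inl rfl)
    by_cases c2 : k % 2 = 1
    · exact hit_s (row_mem (x := a + 1 + k) (by omega) (by omega) (by omega)) (by omega) (by omega)
        (Or.inr rfl)
    by_cases c3 : 2 ≤ a
    · exact hit_s (sh_inr_mem (top_mem (j := 0) (x := a) (y := 2 * m - 1) (by omega) (by omega)
        (by omega) (by omega))) (by omega) (by omega) (Or.inl rfl)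
    obtain rfl : a = 0 := by omega
    by_cases c4 : k + 2 ≤ 2 * m
    · exact hit_s (sh_inr_mem (top_mem (j := 0) (x := k) (y := 2 * m - 1) (by omega) (by omega)
        (by omega) (by omega))) (by omega) (by omega) (Or.inr (by omega))
    · exact hit_b (sh_inl_mem (left_mem (m := m) (j := 0) (y := 1) (by omega) (by omega)
        (by omega))) (by omega) (by omega) (Or.inl (by omega))

end odd

theorem opt_spec (n : ℕ) (hn : 1 ≤ n) : Destroys n (opt n) ∧
    (opt n).card ≤ if n = 1 then 1 else (n ^ 2 + 1) / 2 + 1 := by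
  unfold opt
  by_cases h1 : n = 1
  · subst h1
    simp only [if_true]
    refine ⟨⟨by decide, ?_⟩, by decide⟩
    intro k a b hk ha hb
    obtain rfl : k = 1 := by omega
    obtain rfl : a = 0 := by omega
    obtain rfl : b = 0 := by omega
    decide
  rw [if_neg h1, if_neg h1]
  by_cases h2 : n % 2 = 0
  · rw [if_pos h2]
    obtain ⟨m, rfl⟩ : ∃ m, n = 2 * m := ⟨n / 2, by omega⟩
    rw [show 2 * m / 2 = m by omega]
    refine ⟨⟨evenR_sub, fun k a b hk ha hb => evenR_hit hk ha hb⟩, ?_⟩
    refine (evenR_card (by omega)).trans ?_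
    have : (2 * m) ^ 2 = 2 * (2 * m ^ 2) := by ring
    omega
  · rw [if_neg h2]
    obtain ⟨m, rfl⟩ : ∃ m, n = 2 * m + 1 := ⟨n / 2, by omega⟩
    rw [show (2 * m + 1) / 2 = m by omega]
    refine ⟨⟨oddR_sub, fun k a b hk ha hb => oddR_hit (by omega) hk ha hb⟩, ?_⟩
    refine (oddR_card (by omega)).trans ?_
    have : (2 * m + 1) ^ 2 = 2 * (2 * m ^ 2 + 2 * m) + 1 := by ring
    omega

/-! ### The lower bound -/

section lower

/-- The chain along the diagonal. -/
theorem chain {n : ℕ} {h v : ℕ → ℕ → ℕ} (hn : 2 ≤ n)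
    (cell : ∀ x y, x < n → y < n → h x y + h x (y + 1) + v x y + v (x + 1) y = 1)
    (two : ∀ x y, x + 2 ≤ n → y + 2 ≤ n → 1 ≤ h x y + h (x + 1) y + h x (y + 2) +
      h (x + 1) (y + 2) + v x y + v x (y + 1) + v (x + 2) y + v (x + 2) (y + 1))
    (b1 : v 0 1 = 0) (b2 : h (n - 2) n = 0) (st : v 1 0 = 1) : False := by
  have key : ∀ i, i + 1 < n → v (i + 1) i = 1 ∧ h i (i + 2) = 1 := by
    intro i
    induction i with
    | zero =>
      intro hi
      refine ⟨st, ?_⟩
      have c1 := cell 0 0 (by omega) (by omega)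
      have c2 := cell 1 0 (by omega) (by omega)
      have c3 := cell 0 1 (by omega) (by omega)
      have c4 := cell 1 1 (by omega) (by omega)
      have t1 := two 0 0 (by omega) (by omega)
      simp only [zero_add, Nat.reduceAdd] at *
      omega
    | succ i ih =>
      intro hi
      obtain ⟨h1, h2⟩ := ih (by omega)
      have c1 := cell i i (by omega) (by omega)
      have c2 := cell (i + 1) i (by omega) (by omega)
      have c3 := cell i (i + 1) (by omega) (by omega)
      have c4 := cell (i + 1) (i + 1) (by omega) (by omega)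
      have c5 := cell i (i + 2) (by omega) (by omega)
      have c6 := cell (i + 1) (i + 2) (by omega) (by omega)
      have t1 := two i (i + 1) (by omega) (by omega)
      have e1 : v (i + 2) (i + 1) = 1 := by
        simp only [add_assoc, Nat.reduceAdd] at *
        omega
      have c7 := cell (i + 2) (i + 1) (by omega) (by omega)
      have c8 := cell (i + 2) (i + 2) (by omega) (by omega)
      have t2 := two (i + 1) (i + 1) (by omega) (by omega)
      simp only [add_assoc, Nat.reduceAdd] at *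
      omega
  obtain ⟨i, rfl⟩ : ∃ i, n = i + 2 := ⟨n - 2, by omega⟩
  have h1 := (key i (by omega)).2
  rw [show i + 2 - 2 = i by omega] at b2
  omega

/-- There is no chain along the main diagonal. -/
theorem diag {n : ℕ} {h v : ℕ → ℕ → ℕ} (hn : 2 ≤ n)
    (cell : ∀ x y, x < n → y < n → h x y + h x (y + 1) + v x y + v (x + 1) y = 1)
    (two : ∀ x y, x + 2 ≤ n → y + 2 ≤ n → 1 ≤ h x y + h (x + 1) y + h x (y + 2) +
      h (x + 1) (y + 2) + v x y + v x (y + 1) + v (x + 2) y + v (x + 2) (y + 1))
    (b : h 0 0 + v 0 0 + v 0 1 + h 1 0 + h (n - 2) n + v n (n - 2) = 0) : False := by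
  have c := cell 0 0 (by omega) (by omega)
  simp only [zero_add] at c
  by_cases st : v 1 0 = 1
  · exact chain hn cell two (by omega) (by omega) st
  · refine chain (h := fun x y => v y x) (v := fun x y => h y x) hn ?_ ?_ ?_ ?_ ?_
    · intro x y hx hy
      have c1 := cell y x hy hx
      omega
    · intro x y hx hy
      have t1 := two y x hy hx
      omega
    · omega
    · omega
    · omega

/-- There is no chain along the other diagonal. -/
theorem diag' {n : ℕ} {h v : ℕ → ℕ → ℕ} (hn : 2 ≤ n)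
    (cell : ∀ x y, x < n → y < n → h x y + h x (y + 1) + v x y + v (x + 1) y = 1)
    (two : ∀ x y, x + 2 ≤ n → y + 2 ≤ n → 1 ≤ h x y + h (x + 1) y + h x (y + 2) +
      h (x + 1) (y + 2) + v x y + v x (y + 1) + v (x + 2) y + v (x + 2) (y + 1))
    (b : h (n - 1) 0 + v n 0 + v n 1 + h (n - 2) 0 + h 1 n + v 0 (n - 2) = 0) : False := by
  refine diag (h := fun x y => h (n - 1 - x) y) (v := fun x y => v (n - x) y) hn ?_ ?_ ?_
  · intro x y hx hy
    have c1 := cell (n - 1 - x) y (by omega) hy
    rw [show n - 1 - x + 1 = n - x by omega] at c1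
    rw [show n - (x + 1) = n - 1 - x by omega]
    omega
  · intro x y hx hy
    have t1 := two (n - 2 - x) y (by omega) hy
    rw [show n - 2 - x + 1 = n - 1 - x by omega, show n - 2 - x + 2 = n - x by omega] at t1
    rw [show n - 1 - (x + 1) = n - 2 - x by omega, show n - (x + 2) = n - 2 - x by omega]
    omega
  · rw [show n - 1 - 0 = n - 1 by omega, show n - 0 = n by omega, show n - 1 - 1 = n - 2 by omega,
      show n - 1 - (n - 2) = 1 by omega, show n - n = 0 by omega]
    omega

/-- The indicator of the horizontal segments. -/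
def hh (R : Finset Seg) (x y : ℕ) : ℕ := if Sum.inl (x, y) ∈ R then 1 else 0
/-- The indicator of the vertical segments. -/
def vv (R : Finset Seg) (x y : ℕ) : ℕ := if Sum.inr (x, y) ∈ R then 1 else 0

theorem hh_pos {R : Finset Seg} {x y : ℕ} (h : Sum.inl (x, y) ∈ R) : hh R x y = 1 := if_pos h
theorem vv_pos {R : Finset Seg} {x y : ℕ} (h : Sum.inr (x, y) ∈ R) : vv R x y = 1 := if_pos h

theorem card_eq {n : ℕ} {R : Finset Seg} (hR : R ⊆ board n) : R.card =
    ∑ x ∈ range n, ∑ y ∈ range (n + 1), hh R x y +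
      ∑ x ∈ range (n + 1), ∑ y ∈ range n, vv R x y := by
  have h1 : R.card = ∑ e ∈ board n, if e ∈ R then 1 else 0 := by
    rw [sum_ite_mem, inter_eq_right.2 hR]
    simp
  rw [h1, board, sum_disjSum, sum_product, sum_product]
  rfl

/-- Counting the sides of the cells. -/
theorem count (n : ℕ) (h v : ℕ → ℕ → ℕ) :
    ∑ x ∈ range n, ∑ y ∈ range n, (h x y + h x (y + 1) + v x y + v (x + 1) y) +
      (∑ x ∈ range n, (h x 0 + h x n) + ∑ y ∈ range n, (v 0 y + v n y)) =
    2 * (∑ x ∈ range n, ∑ y ∈ range (n + 1), h x y +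
      ∑ x ∈ range (n + 1), ∑ y ∈ range n, v x y) := by
  have h1 : ∑ x ∈ range n, ∑ y ∈ range (n + 1), h x y =
      ∑ x ∈ range n, ∑ y ∈ range n, h x y + ∑ x ∈ range n, h x n := by
    rw [← sum_add_distrib]
    exact sum_congr rfl fun x _ => sum_range_succ _ _
  have h2 : ∑ x ∈ range n, ∑ y ∈ range (n + 1), h x y =
      ∑ x ∈ range n, ∑ y ∈ range n, h x (y + 1) + ∑ x ∈ range n, h x 0 := by
    rw [← sum_add_distrib]
    exact sum_congr rfl fun x _ => sum_range_succ' _ _
  have h3 : ∑ x ∈ range (n + 1), ∑ y ∈ range n, v x y =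
      ∑ x ∈ range n, ∑ y ∈ range n, v x y + ∑ y ∈ range n, v n y := sum_range_succ _ _
  have h4 : ∑ x ∈ range (n + 1), ∑ y ∈ range n, v x y =
      ∑ x ∈ range n, ∑ y ∈ range n, v (x + 1) y + ∑ y ∈ range n, v 0 y := sum_range_succ' _ _
  simp only [sum_add_distrib]
  omega

theorem cell_pos {n : ℕ} {R : Finset Seg} (hR : Destroys n R) {x y : ℕ} (hx : x < n) (hy : y < n) :
    1 ≤ hh R x y + hh R x (y + 1) + vv R x y + vv R (x + 1) y := by
  have h1 := hR.2 1 x y le_rfl hx hy
  rw [hit_iff] at h1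
  obtain ⟨t, ht, h1⟩ := h1
  obtain rfl : t = 0 := by omega
  simp only [add_zero] at h1
  rcases h1 with h | h | h | h
  · have := hh_pos h
    omega
  · have := hh_pos h
    omega
  · have := vv_pos h
    omega
  · have := vv_pos h
    omega

theorem two_pos' {n : ℕ} {R : Finset Seg} (hR : Destroys n R) (x y : ℕ) (hx : x + 2 ≤ n)
    (hy : y + 2 ≤ n) : 1 ≤ hh R x y + hh R (x + 1) y + hh R x (y + 2) + hh R (x + 1) (y + 2) +
      vv R x y + vv R x (y + 1) + vv R (x + 2) y + vv R (x + 2) (y + 1) := by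
  have h1 := hR.2 2 x y (by omega) hx hy
  rw [hit_iff] at h1
  obtain ⟨t, ht, h1⟩ := h1
  rcases (by omega : t = 0 ∨ t = 1) with rfl | rfl
  · simp only [add_zero] at h1
    rcases h1 with h | h | h | h
    · have := hh_pos h
      omega
    · have := hh_pos h
      omega
    · have := vv_pos h
      omega
    · have := vv_pos h
      omega
  · rcases h1 with h | h | h | h
    · have := hh_pos h
      omega
    · have := hh_pos h
      omega
    · have := vv_pos h
      omega
    · have := vv_pos h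
      omega

theorem outer_pos {n : ℕ} (hn : 1 ≤ n) {R : Finset Seg} (hR : Destroys n R) :
    1 ≤ ∑ x ∈ range n, (hh R x 0 + hh R x n) + ∑ y ∈ range n, (vv R 0 y + vv R n y) := by
  have h1 := hR.2 n 0 0 hn (by omega) (by omega)
  rw [hit_iff] at h1
  obtain ⟨t, ht, h1⟩ := h1
  simp only [zero_add] at h1
  have h2 := single_le_sum (f := fun x => hh R x 0 + hh R x n) (s := range n)
    (fun _ _ => Nat.zero_le _) (mem_range.2 ht)
  have h3 := single_le_sum (f := fun y => vv R 0 y + vv R n y) (s := range n)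
    (fun _ _ => Nat.zero_le _) (mem_range.2 ht)
  beta_reduce at h2 h3
  rcases h1 with h | h | h | h
  · have := hh_pos h
    omega
  · have := hh_pos h
    omega
  · have := vv_pos h
    omega
  · have := vv_pos h
    omega

theorem lower_one {n : ℕ} (hn : 1 ≤ n) {R : Finset Seg} (hR : Destroys n R) :
    n ^ 2 + 1 ≤ 2 * R.card := by
  rw [card_eq hR.1, ← count]
  have h1 := outer_pos hn hR
  have h2 : n ^ 2 ≤ ∑ x ∈ range n, ∑ y ∈ range n,
      (hh R x y + hh R x (y + 1) + vv R x y + vv R (x + 1) y) := by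
    calc n ^ 2 = ∑ x ∈ range n, ∑ y ∈ range n, 1 := by simp [pow_two]
      _ ≤ _ := sum_le_sum fun x hx => sum_le_sum fun y hy =>
        cell_pos hR (mem_range.1 hx) (mem_range.1 hy)
  omega

theorem lower_odd {n : ℕ} (hn : 3 ≤ n) {R : Finset Seg} (hR : Destroys n R) :
    2 * R.card ≠ n ^ 2 + 1 := by
  intro hc
  rw [card_eq hR.1, ← count] at hc
  have h1 := outer_pos (by omega) hR
  have h2 : ∑ x ∈ range n, ∑ y ∈ range n, 1 = n ^ 2 := by simp [pow_two]
  have h3 : ∀ x ∈ range n, ∑ y ∈ range n, 1 ≤ ∑ y ∈ range n,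
      (hh R x y + hh R x (y + 1) + vv R x y + vv R (x + 1) y) := fun x hx =>
    sum_le_sum fun y hy => cell_pos hR (mem_range.1 hx) (mem_range.1 hy)
  have h4 := sum_le_sum h3
  have h5 : ∑ x ∈ range n, ∑ y ∈ range n, 1 = ∑ x ∈ range n, ∑ y ∈ range n,
      (hh R x y + hh R x (y + 1) + vv R x y + vv R (x + 1) y) := by omega
  have cell : ∀ x y, x < n → y < n →
      hh R x y + hh R x (y + 1) + vv R x y + vv R (x + 1) y = 1 := by
    intro x y hx hy
    have h6 := (sum_eq_sum_iff_of_le h3).1 h5 x (mem_range.2 hx)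
    exact ((sum_eq_sum_iff_of_le fun y hy =>
      cell_pos hR hx (mem_range.1 hy)).1 h6 y (mem_range.2 hy)).symm
  have two := two_pos' hR
  have hout : ∑ x ∈ range n, (hh R x 0 + hh R x n) + ∑ y ∈ range n, (vv R 0 y + vv R n y) = 1 := by
    omega
  generalize hh R = h at *
  generalize vv R = v at *
  by_cases h3' : n = 3
  · subst h3'
    simp only [sum_range_succ, sum_range_zero, zero_add] at hout
    have c00 := cell 0 0 (by omega) (by omega)
    have c01 := cell 0 1 (by omega) (by omega)
    have c02 := cell 0 2 (by omega) (by omega)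
    have c10 := cell 1 0 (by omega) (by omega)
    have c11 := cell 1 1 (by omega) (by omega)
    have c12 := cell 1 2 (by omega) (by omega)
    have c20 := cell 2 0 (by omega) (by omega)
    have c21 := cell 2 1 (by omega) (by omega)
    have c22 := cell 2 2 (by omega) (by omega)
    simp only [zero_add, Nat.reduceAdd] at c00 c01 c02 c10 c11 c12 c20 c21 c22
    have hmid : v 0 1 + h 1 0 + h 1 3 + v 3 1 = 0 := by omega
    by_cases h6 : h 0 0 + v 0 0 = 0
    · refine diag (by omega) cell two ?_
      simp only [Nat.reduceSub]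
      omega
    · refine diag' (by omega) cell two ?_
      simp only [Nat.reduceSub]
      omega
  · obtain ⟨m, rfl⟩ : ∃ m, n = m + 2 + 2 := ⟨n - 4, by omega⟩
    have e : ∀ g : ℕ → ℕ, ∑ x ∈ range (m + 2 + 2), g x =
        g 0 + g 1 + ∑ x ∈ range m, g (x + 2) + g (m + 2) + g (m + 3) := by
      intro g
      rw [sum_range_succ, sum_range_succ, sum_range_succ', sum_range_succ']
      simp only [add_assoc, zero_add, Nat.reduceAdd]
      omega
    rw [e, e] at hout
    by_cases h6 : h 0 0 + v 0 0 + v 0 1 + h 1 0 + h (m + 2) (m + 4) + v (m + 4) (m + 2) = 0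
    · refine diag (by omega) cell two ?_
      rw [show m + 2 + 2 - 2 = m + 2 by omega]
      exact h6
    · refine diag' (by omega) cell two ?_
      rw [show m + 2 + 2 - 2 = m + 2 by omega, show m + 2 + 2 - 1 = m + 3 by omega]
      simp only [add_assoc, Nat.reduceAdd] at *
      omega

theorem lower_bound {n : ℕ} (hn : 1 ≤ n) {R : Finset Seg} (hR : Destroys n R) :
    (if n = 1 then 1 else (n ^ 2 + 1) / 2 + 1) ≤ R.card := by
  have h1 := lower_one hn hR
  split_ifs with h2
  · subst h2
    omega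
  · by_cases h3 : n % 2 = 0
    · obtain ⟨m, rfl⟩ : ∃ m, n = 2 * m := ⟨n / 2, by omega⟩
      have : (2 * m) ^ 2 = 2 * (2 * m ^ 2) := by ring
      omega
    · have h4 := lower_odd (by omega) hR
      omega

end lower

/-- `f(1) = 1` and `f(n) = ⌈n² / 2⌉ + 1` for `n ≥ 2`, and the construction `opt n` attains it. -/
theorem result : f 1 = 1 ∧ (∀ n, 2 ≤ n → f n = (n ^ 2 + 1) / 2 + 1) ∧
    ∀ n, 1 ≤ n → Destroys n (opt n) ∧ (opt n).card = f n := by
  have key : ∀ n, 1 ≤ n → (f n = if n = 1 then 1 else (n ^ 2 + 1) / 2 + 1) ∧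
      Destroys n (opt n) ∧ (opt n).card = f n := by
    intro n hn
    obtain ⟨h1, h2⟩ := opt_spec n hn
    have h3 := lower_bound hn h1
    have h4 : (opt n).card = if n = 1 then 1 else (n ^ 2 + 1) / 2 + 1 := le_antisymm h2 h3
    have h5 : f n = if n = 1 then 1 else (n ^ 2 + 1) / 2 + 1 := by
      apply le_antisymm
      · exact Nat.sInf_le ⟨_, h1, h4⟩
      · obtain ⟨R, hR, hc⟩ := Nat.sInf_mem (s := {c | ∃ R, Destroys n R ∧ R.card = c})
          ⟨_, _, h1, rfl⟩
        rw [f, ← hc]
        exact lower_bound hn hR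
    exact ⟨h5, h1, h4.trans h5.symm⟩
  refine ⟨?_, fun n hn => ?_, fun n hn => (key n hn).2⟩
  · rw [(key 1 le_rfl).1, if_pos rfl]
  · rw [(key n (by omega)).1, if_neg (by omega)]

end Pool.Agent.Results.MP_5493ad_co.UnitSegments
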